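import Pool.Agent.H78.CUB.Cast

set_option autoImplicit false

namespace Pool.Agent.Results.MP_bac8d4_nt.Gaps

open Pool.CUB

/-- For every `ε > 0` there is a constant `C` such that for every `N ≥ 1` some `n` with
`N < n ≤ C N^(1 + ε)` has `A(n) ≠ 0`. -/
theorem result (ε : ℝ) (hε : 0 < ε) : ∃ C : ℝ, ∀ N : ℕ, 1 ≤ N →
    ∃ n : ℕ, N < n ∧ (n : ℝ) ≤ C * (N : ℝ) ^ (1 + ε) ∧ A n ≠ 0 := by
  obtain ⟨C, hC⟩ := asymp ε hε
  refine ⟨C, fun N hN => ?_⟩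
  obtain ⟨n, h1, h2, h3⟩ := hC N hN
  refine ⟨n, h1, h2, fun h0 => h3 ?_⟩
  rw [← cast_A, h0, Int.cast_zero]

end Pool.Agent.Results.MP_bac8d4_nt.Gaps
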