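import Pool.Agent.H78.CUB.Cast

set_option autoImplicit false

namespace Pool.Agent.Results.MP_bac8d4_nt.ModPrimes

open Pool.CUB

/-- For every prime `p` and all `N` and `m ≥ 2` with `N < m³ - (m - 1)³` some `n` with
`N < n < m³` has `p ∤ A(n)`. -/
theorem result (p : ℕ) (hp : p.Prime) (N m : ℕ) (hm : 2 ≤ m) (h : N + (m - 1) ^ 3 < m ^ 3) :
    ∃ n : ℕ, N < n ∧ n < m ^ 3 ∧ ¬ (p : ℤ) ∣ A n := by
  have hpf : Fact p.Prime := ⟨hp⟩
  obtain ⟨n, h1, h2, h3⟩ := gap (K := ZMod p) N m hm h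
  refine ⟨n, h1, h2, fun hdvd => h3 ?_⟩
  rw [← cast_A]
  exact (ZMod.intCast_zmod_eq_zero_iff_dvd _ p).2 hdvd

end Pool.Agent.Results.MP_bac8d4_nt.ModPrimes
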